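import Pool.Agent.V11288.HS.Main
import Pool.Agent.V11288.EV.Frob

/-!
# The L-functions of motives to the right of the central line and the Hardy space

Let `M` be a pure motive over a number field `K` (for example `K = ℚ`) and `i` an integer, for example
`M = h(X)` for a smooth projective variety `X`, and let `α_{v,1}, …, α_{v,N}` be the eigenvalues of Frobenius on
`H^i(M)` for the primes `v` of a set `S` of primes (in the main case all primes of good reduction; the other
Euler factors are meromorphic and without zeros). Let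

`L(s) = ∏_{v ∈ S} ∏_j (1 - α_{v,j} q_v^{-s})⁻¹`, `Re s > i/2 + 1`, `c = (i + 1)/2`,

`log P(Y) = ∑_{q_v^k ≤ Y} t_k(v) / (k q_v^{k c})`, `t_k(v) = ∑_j α_{v,j}^k`,

so that `P(Y)` is the partial Euler product at the central point `c` with a sharp cut-off. Nothing is assumed
about a continuation of `L`. It is shown for all real `r`, all `A > 0` and all `C ≥ 0` that

`∫_1^∞ (log P(Y) + r (log log Y + γ) - log A)² dY/Y ≤ C`

if and only if `L` has a holomorphic continuation `exp ℓ(s)` without zeros to the half plane `Re s > c` with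

`∫_{Re s = c + x} |ℓ(s) - r log (s - c) - log A|² / |s - c|² |ds| ≤ 2π C` for all `x > 0`:

the mean square deviation of the Euler products at the central point is EQUAL to the square of the norm of the
function `(log L(s) - r log (s - c) - log A)/(s - c)` in the Hardy space `H²` of the half plane `Re s > c`. It
follows for all `s` with `Re s > c` that

`|log L(s) - r log (s - c) - log A|² ≤ C |s - c|² / (2 Re (s - c))`,

in particular `L(s) = A (s - c)^r (1 + O(|s - c|^{1/2}))` for `s → c` in every sector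
`|arg (s - c)| ≤ θ < π/2`.
-/

set_option autoImplicit false

namespace Pool.Agent.Results.MP_148101_nt.HardySpaceCriterion

open Filter Topology Set NumberField IsDedekindDomain MeasureTheory

variable {K : Type} [Field K] [NumberField K] {n N : ℕ}

/-- The norm `q_v`. -/
noncomputable def nrm (v : HeightOneSpectrum (𝓞 K)) : ℕ := Ideal.absNorm v.asIdeal

/-- The set `X` of homogeneous polynomials over `𝓞_K` in `n` variables gives a projective variety over
`K`.  For a field `κ` with `q` elements and a homomorphism `𝓞_K → κ` this is `(q - 1)` times the number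
of the points of `X` with coordinates in `κ`: the number of the nonzero solutions of the equations. -/
noncomputable def cone (X : Set (MvPolynomial (Fin n) (𝓞 K))) {κ : Type} [Field κ]
    (φ : 𝓞 K →+* κ) : ℕ :=
  Nat.card {u : Fin n → κ // u ≠ 0 ∧ ∀ f ∈ X, MvPolynomial.eval₂ φ u f = 0}

/-- `α_1, …, α_N` are the eigenvalues of the geometric Frobenius at the prime `v` of `K` on `H^i(X)`,
for a variety `X` of dimension `d`: there are finite multisets `β_k` of complex numbers of absolute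
value `q_v^{k/2}`, `k = 0, …, 2d`, with `β_i = {α_1, …, α_N}`, such that for every finite extension
`κ` of the residue field of `v`, of degree `e`, the number of the points of `X` with coordinates in
`κ` is `∑ (-1)^k ∑_{z ∈ β_k} z^e`.  By the theorem of Deligne such `β_k` exist at almost all primes
if `X` is smooth, with `N` the `i`-th Betti number of `X`; for `k ≤ 2d` they are unique. -/
def IsFrobenius (X : Set (MvPolynomial (Fin n) (𝓞 K))) (d i : ℕ)
    (v : HeightOneSpectrum (𝓞 K)) (α : Fin N → ℂ) : Prop :=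
  ∃ β : ℕ → Multiset ℂ, β i = Finset.univ.val.map α ∧
    (∀ k, ∀ z ∈ β k, ‖z‖ = (nrm v : ℝ) ^ ((k : ℝ) / 2)) ∧
    ∀ (κ : Type) [Field κ] [Finite κ] (φ : 𝓞 K →+* κ) (e : ℕ), RingHom.ker φ = v.asIdeal →
      Nat.card κ = nrm v ^ e →
      (cone X φ : ℂ) = ((nrm v : ℂ) ^ e - 1) *
          ∑ k ∈ Finset.range (2 * d + 1), (-1 : ℂ) ^ k * ((β k).map (fun z => z ^ e)).sum

variable {S : Set (HeightOneSpectrum (𝓞 K))}

/-- The Euler factor `∏_j (1 - α_{v,j} q_v^{-s})⁻¹`. -/
noncomputable def factor (α : S → Fin N → ℂ) (v : S) (s : ℂ) : ℂ :=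
  ∏ j, (1 - α v j * (nrm v.1 : ℂ) ^ (-s))⁻¹

/-- The central point `(i + 1)/2`. -/
noncomputable def centre (i : ℕ) : ℝ := ((i : ℝ) + 1) / 2

/-- `α` is a pure system of weight `i` with real traces: `|α_{v,j}| ≤ q_v^{i/2}` for all `v ∈ S` and `j`, and the
traces `t_k(v) = ∑_j α_{v,j}^k` are real. By the theorem of Deligne this holds for the eigenvalues of Frobenius
on `H^i(M)` for every Chow motive `M` over `K` at the primes of good reduction (the traces are rational). -/
def Pure (i : ℕ) (α : S → Fin N → ℂ) : Prop :=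
  (∀ v j, ‖α v j‖ ≤ (nrm v.1 : ℝ) ^ ((i : ℝ) / 2)) ∧ ∀ v k, (∑ j, α v j ^ k).im = 0

/-- `log P(Y)`: the sum of `t_k(v) / (k q_v^{k (i+1)/2})` over all primes `v ∈ S` and `k ≥ 1` (here
`k = p.2 + 1`) with `q_v^k ≤ Y`; `t_k(v) = ∑_j α_{v,j}^k` is a real number. -/
noncomputable def logP (i : ℕ) (α : S → Fin N → ℂ) (Y : ℝ) : ℝ :=
  ∑ᶠ (p : S × ℕ) (_ : (nrm p.1.1 : ℝ) ^ (p.2 + 1) ≤ Y),
    (∑ j, α p.1 j ^ (p.2 + 1)).re / (((p.2 : ℝ) + 1) * ((nrm p.1.1 : ℝ) ^ centre i) ^ (p.2 + 1))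

/-- The mean square deviation `∫_1^∞ (log P(Y) + r (γ + log log Y) - log A)² dY/Y ∈ [0, ∞]`. -/
noncomputable def meanSquare (i : ℕ) (α : S → Fin N → ℂ) (r A : ℝ) : ENNReal :=
  ∫⁻ Y in Ioi (1 : ℝ), ENNReal.ofReal
    ((logP i α Y + r * (Real.eulerMascheroniConstant + Real.log (Real.log Y)) - Real.log A) ^ 2 / Y)

/-- `ℓ` is a logarithm of a holomorphic continuation of `L(s)` without zeros to `Re s > (i + 1)/2`: it is
holomorphic there and `exp ℓ(s)` is the value of the Euler product for `Re s > i/2 + 1`. -/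
def IsLog (i : ℕ) (α : S → Fin N → ℂ) (ℓ : ℂ → ℂ) : Prop :=
  (∀ s : ℂ, centre i < s.re → DifferentiableAt ℂ ℓ s) ∧
  ∀ s : ℂ, (i : ℝ) / 2 + 1 < s.re → HasProd (fun v : S => factor α v s) (Complex.exp (ℓ s))

/-- `∫ |ℓ(s) - r log (s - c) - log A|² / |s - c|² dt` over the line `s = c + x + t √-1`. -/
noncomputable def vertical (i : ℕ) (ℓ : ℂ → ℂ) (r A x : ℝ) : ENNReal :=
  ∫⁻ t : ℝ, ENNReal.ofReal (‖(ℓ (centre i + x + t * Complex.I) - r * Complex.log (x + t * Complex.I) -
    Real.log A) / (x + t * Complex.I)‖ ^ 2)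

open Pool.Agent.TH942.ES
open Pool.Agent.V11288

/-- the normalised eigenvalues -/
noncomputable def nal (i : ℕ) (α : S → Fin N → ℂ) (v : S) (j : Fin N) : ℂ :=
  α v j * (((nrm v.1 : ℝ) ^ (-((i : ℝ) / 2)) : ℝ) : ℂ)

theorem frob_iff {X : Set (MvPolynomial (Fin n) (𝓞 K))} {d i : ℕ} {v : HeightOneSpectrum (𝓞 K)}
    {α : Fin N → ℂ} : IsFrobenius X d i v α ↔ EV.IsFrobenius X d i v α := Iff.rfl

theorem nrm_two (v : HeightOneSpectrum (𝓞 K)) : (2 : ℝ) ≤ nrm v := by
  exact_mod_cast Pool.Agent.H921R2.TatePole.two_le_nm v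

theorem zv_eq (i : ℕ) (α : S → Fin N → ℂ) (v : S) (j : Fin N) :
    zv (fun v : S => Pool.Agent.H921R2.TatePole.nm v.1) (nal i α) v j =
      α v j * ((((nrm v.1 : ℝ) ^ centre i)⁻¹ : ℝ) : ℂ) := by
  have h2 := nrm_two v.1
  have h0 : (0 : ℝ) < nrm v.1 := by linarith
  change α v j * (((nrm v.1 : ℝ) ^ (-((i : ℝ) / 2)) : ℝ) : ℂ) / ((√(nrm v.1 : ℝ) : ℝ) : ℂ) = _
  rw [mul_div_assoc, ← Complex.ofReal_div]
  congr 2
  rw [Real.sqrt_eq_rpow, ← Real.rpow_sub h0, ← Real.rpow_neg h0.le]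
  congr 1
  unfold centre
  ring

theorem norm_lt {i : ℕ} {α : S → Fin N → ℂ} (h : Pure i α) (v : S) (j : Fin N) :
    ‖α v j * ((((nrm v.1 : ℝ) ^ centre i)⁻¹ : ℝ) : ℂ)‖ < 1 := by
  have h2 := nrm_two v.1
  have h0 : (0 : ℝ) < nrm v.1 := by linarith
  have h1 := h.1 v j
  rw [norm_mul, Complex.norm_real, Real.norm_eq_abs, abs_of_pos (by positivity)]
  have h3 : (nrm v.1 : ℝ) ^ ((i : ℝ) / 2) * ((nrm v.1 : ℝ) ^ centre i)⁻¹ < 1 := by
    rw [← Real.rpow_neg h0.le, ← Real.rpow_add h0]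
    refine Real.rpow_lt_one_of_one_lt_of_neg (by linarith) ?_
    unfold centre
    linarith
  exact (mul_le_mul_of_nonneg_right h1 (by positivity)).trans_lt h3

theorem nal_norm {i : ℕ} {α : S → Fin N → ℂ} (h : Pure i α) (v : S) (j : Fin N) :
    ‖nal i α v j‖ ≤ 1 := by
  have h2 := nrm_two v.1
  have h0 : (0 : ℝ) < nrm v.1 := by linarith
  have h1 := h.1 v j
  unfold nal
  rw [norm_mul, Complex.norm_real, Real.norm_eq_abs, abs_of_pos (by positivity)]
  calc ‖α v j‖ * (nrm v.1 : ℝ) ^ (-((i : ℝ) / 2)) ≤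
        (nrm v.1 : ℝ) ^ ((i : ℝ) / 2) * (nrm v.1 : ℝ) ^ (-((i : ℝ) / 2)) := by gcongr
    _ = 1 := by rw [← Real.rpow_add h0, add_neg_cancel, Real.rpow_zero]

theorem pow_real {i : ℕ} {α : S → Fin N → ℂ} (h : Pure i α) (v : S) (c : ℝ) (k : ℕ) :
    (∑ j, (α v j * (c : ℂ)) ^ k).im = 0 := by
  simp only [mul_pow]
  rw [← Finset.sum_mul, ← Complex.ofReal_pow, Complex.im_mul_ofReal, h.2 v k, zero_mul]

theorem log_real {i : ℕ} {α : S → Fin N → ℂ} (h : Pure i α) (v : S) :
    (∑ j, Complex.log (1 - α v j * ((((nrm v.1 : ℝ) ^ centre i)⁻¹ : ℝ) : ℂ))).im = 0 := by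
  have h1 : HasSum (fun k : ℕ => ∑ j, (α v j * ((((nrm v.1 : ℝ) ^ centre i)⁻¹ : ℝ) : ℂ)) ^ k / k)
      (∑ j, -Complex.log (1 - α v j * ((((nrm v.1 : ℝ) ^ centre i)⁻¹ : ℝ) : ℂ))) :=
    hasSum_sum fun j _ => Complex.hasSum_taylorSeries_neg_log (norm_lt h v j)
  have h2 := Complex.hasSum_im h1
  have h3 : ∀ k : ℕ, (∑ j, (α v j * ((((nrm v.1 : ℝ) ^ centre i)⁻¹ : ℝ) : ℂ)) ^ k / k).im = 0 := by
    intro k
    rw [← Finset.sum_div, ← Complex.ofReal_natCast, Complex.div_ofReal_im, pow_real h v, zero_div]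
  simp only [h3] at h2
  have h4 := h2.unique hasSum_zero
  rw [Finset.sum_neg_distrib, Complex.neg_im, neg_eq_zero] at h4
  exact h4

theorem sys {i : ℕ} {α : S → Fin N → ℂ} (h : Pure i α) :
    Sys (fun v : S => Pool.Agent.H921R2.TatePole.nm v.1) (nal i α) :=
  nf_sys (fun v => v ∈ S) (nal i α) (fun v j => nal_norm h v j) fun v => by
    have h1 : ∀ j, nal i α v j / ((√(((Pool.Agent.H921R2.TatePole.nm v.1 : ℕ) : ℝ)) : ℝ) : ℂ) =
        α v j * ((((nrm v.1 : ℝ) ^ centre i)⁻¹ : ℝ) : ℂ) := fun j => zv_eq i α v j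
    simp only [h1]
    exact log_real h v

theorem factor_eq (i : ℕ) (α : S → Fin N → ℂ) (s : ℂ) :
    (fun v : S => factor α v s) = fun v : S =>
      ∏ j, (1 - zv (fun v : S => Pool.Agent.H921R2.TatePole.nm v.1) (nal i α) v j *
        xv (fun v : S => Pool.Agent.H921R2.TatePole.nm v.1) v (s - centre i))⁻¹ := by
  funext v
  have h2 := nrm_two v.1
  have h0 : (0 : ℝ) < nrm v.1 := by linarith
  have hc : (nrm v.1 : ℂ) ≠ 0 := by exact_mod_cast h0.ne'
  unfold factor
  refine Finset.prod_congr rfl fun j _ => ?_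
  rw [zv_eq]
  congr 2
  rw [mul_assoc]
  congr 1
  have e1 : xv (fun v : S => Pool.Agent.H921R2.TatePole.nm v.1) v (s - centre i) =
      (nrm v.1 : ℂ) ^ (-(s - centre i)) := by
    rw [Complex.cpow_def_of_ne_zero hc]
    unfold xv
    congr 1
    change -((s - centre i) * ((Real.log (nrm v.1 : ℝ) : ℝ) : ℂ)) = _
    rw [Complex.ofReal_log h0.le, Complex.ofReal_natCast]
    ring
  rw [e1, ← Real.rpow_neg h0.le, Complex.ofReal_cpow h0.le, Complex.ofReal_natCast,
    ← Complex.cpow_add _ _ hc]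
  congr 1
  push_cast
  ring

theorem hasProd_iff {i : ℕ} {α : S → Fin N → ℂ} (h : Pure i α) {s : ℂ}
    (hs : (i : ℝ) / 2 + 1 < s.re) (y : ℂ) :
    HasProd (fun v : S => factor α v s) y ↔
      y = LE (fun v : S => Pool.Agent.H921R2.TatePole.nm v.1) (nal i α) (s - centre i) := by
  have h1 : 1 / 2 < (s - centre i).re := by
    rw [Complex.sub_re, Complex.ofReal_re]
    unfold centre
    linarith
  have h2 := (sys h).hasProd h1
  rw [factor_eq i α s]
  constructor
  · intro h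
    exact h.tprod_eq.symm
  · rintro rfl
    unfold Pool.Agent.TH942.ES.LE
    rw [h2.tprod_eq]
    exact h2

theorem logP_eq (i : ℕ) (α : S → Fin N → ℂ) (Y : ℝ) : logP i α Y =
    Pool.Agent.TH270.MS.Pl (fun v : S => Pool.Agent.H921R2.TatePole.nm v.1) (nal i α) Y := by
  unfold logP Pool.Agent.TH270.MS.Pl
  refine finsum_congr fun p => finsum_congr fun _ => ?_
  have h2 := nrm_two p.1.1
  have h0 : (0 : ℝ) < nrm p.1.1 := by linarith
  have h3 : (0 : ℝ) < (nrm p.1.1 : ℝ) ^ centre i := by positivity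
  unfold cP
  simp only [zv_eq, mul_pow]
  rw [← Finset.sum_mul, ← Complex.ofReal_pow, Complex.re_mul_ofReal, inv_pow]
  field_simp

theorem meanSquare_eq (i : ℕ) (α : S → Fin N → ℂ) (r A : ℝ) : meanSquare i α r A =
    ∫⁻ Y in Ioi (1 : ℝ), ENNReal.ofReal
      (HS.Dr (fun v : S => Pool.Agent.H921R2.TatePole.nm v.1) (nal i α) r (Real.log A) Y ^ 2 / Y) := by
  unfold meanSquare HS.Dr
  simp only [logP_eq]

/-- the eigenvalues of Frobenius on `H^i(X)` -/
theorem pure_of_frobenius {X : Set (MvPolynomial (Fin n) (𝓞 K))} {d i : ℕ} (hi : i ≤ 2 * d)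
    {α : S → Fin N → ℂ} (h : ∀ v, IsFrobenius X d i v.1 (α v)) : Pure i α := by
  refine ⟨fun v j => ?_, fun v k => ?_⟩
  · have h1 : ‖α v j‖ = (nrm v.1 : ℝ) ^ ((i : ℝ) / 2) := EV.norm' (frob_iff.1 (h v)) j
    exact h1.le
  · refine EV.real_sum hi (frob_iff.1 (h v)) (fun z => z ^ k) fun j => ?_
    rw [map_pow]

theorem shift_re (i : ℕ) (s : ℂ) : (s + (centre i : ℂ)).re = s.re + centre i := by
  rw [Complex.add_re, Complex.ofReal_re]

theorem shift_re' (i : ℕ) (s : ℂ) : (s - (centre i : ℂ)).re = s.re - centre i := by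
  rw [Complex.sub_re, Complex.ofReal_re]

/-- **Theorem.** (1) Let `α` be a pure system of weight `i` with real traces at the primes `v ∈ S` of a number
field, `r` real, `A > 0`, `C ≥ 0`. Then

(a) `∫_1^∞ (log P(Y) + r (log log Y + γ) - log A)² dY/Y ≤ C` if and only if `L` has a holomorphic
continuation `exp ℓ(s)` without zeros to `Re s > c = (i + 1)/2` with
`∫_{Re s = c + x} |ℓ(s) - r log (s - c) - log A|² / |s - c|² |ds| ≤ 2π C` for all `x > 0`;

(b) in this case `L` has a holomorphic continuation `exp ℓ(s)` without zeros to `Re s > c` with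
`|ℓ(s) - r log (s - c) - log A|² ≤ C |s - c|² / (2 Re (s - c))` for all `s` with `Re s > c`.

(2) The eigenvalues of Frobenius on `H^i(X)`, `X` a projective variety of dimension `d`, `i ≤ 2d`, are such
systems. -/
theorem result :
    (∀ (S : Set (HeightOneSpectrum (𝓞 K))) (N i : ℕ) (α : S → Fin N → ℂ), Pure i α →
      ∀ r A C : ℝ, 0 < A → 0 ≤ C →
        (meanSquare i α r A ≤ ENNReal.ofReal C ↔ ∃ ℓ : ℂ → ℂ, IsLog i α ℓ ∧
          ∀ x : ℝ, 0 < x → vertical i ℓ r A x ≤ ENNReal.ofReal (2 * Real.pi * C)) ∧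
        (meanSquare i α r A ≤ ENNReal.ofReal C → ∃ ℓ : ℂ → ℂ, IsLog i α ℓ ∧
          ∀ s : ℂ, centre i < s.re →
            ‖ℓ s - r * Complex.log (s - centre i) - Real.log A‖ ^ 2 ≤
              C * ‖s - centre i‖ ^ 2 / (2 * (s.re - centre i)))) ∧
    ∀ (X : Set (MvPolynomial (Fin n) (𝓞 K))) (d i : ℕ), i ≤ 2 * d →
      ∀ (S : Set (HeightOneSpectrum (𝓞 K))) (N : ℕ) (α : S → Fin N → ℂ),
        (∀ v, IsFrobenius X d i v.1 (α v)) → Pure i α := by
  refine ⟨fun S N i α h r A C hA hC => ?_, fun X d i hi S N α h => pure_of_frobenius hi h⟩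
  have E := sys h
  have hreal : ∀ (v : S) (k : ℕ),
      (∑ j, zv (fun v : S => Pool.Agent.H921R2.TatePole.nm v.1) (nal i α) v j ^ k).im = 0 := by
    intro v k
    simp only [zv_eq]
    exact pow_real h v _ k
  obtain ⟨h1, h2⟩ := HS.hardy_iff E hreal r (Real.log A) hC
  rw [← meanSquare_eq] at h1 h2
  -- the translation of the logarithms
  have hlog : ∀ ℓ : ℂ → ℂ, (∀ s : ℂ, 0 < s.re → DifferentiableAt ℂ ℓ s) →
      (∀ s : ℂ, 1 / 2 < s.re → Complex.exp (ℓ s) =
        LE (fun v : S => Pool.Agent.H921R2.TatePole.nm v.1) (nal i α) s) →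
      IsLog i α fun s => ℓ (s - centre i) := by
    intro ℓ a1 a2
    refine ⟨fun s hs => ?_, fun s hs => ?_⟩
    · have h3 : 0 < (s - (centre i : ℂ)).re := by rw [shift_re']; linarith
      exact (a1 _ h3).comp s (by fun_prop)
    · rw [hasProd_iff h hs]
      refine a2 _ ?_
      rw [shift_re']
      unfold centre
      linarith
  refine ⟨h1.trans ⟨?_, ?_⟩, fun hm => ?_⟩
  · rintro ⟨ℓ, a1, a2, a3⟩
    refine ⟨fun s => ℓ (s - centre i), hlog ℓ a1 a2, fun x hx => ?_⟩
    refine le_trans (le_of_eq ?_) (a3 x hx)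
    unfold vertical
    refine lintegral_congr fun t => ?_
    have e : (centre i : ℂ) + x + t * Complex.I - centre i = x + t * Complex.I := by ring
    beta_reduce
    rw [e]
  · rintro ⟨ℓ, ⟨a1, a2⟩, a3⟩
    refine ⟨fun s => ℓ (s + centre i), fun s hs => ?_, fun s hs => ?_, fun x hx => ?_⟩
    · have h3 : centre i < (s + (centre i : ℂ)).re := by rw [shift_re]; linarith
      exact (a1 _ h3).comp s (by fun_prop)
    · have h3 : (i : ℝ) / 2 + 1 < (s + (centre i : ℂ)).re := by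
        rw [shift_re]
        unfold centre
        linarith
      have h4 := (hasProd_iff h h3 _).1 (a2 _ h3)
      rwa [add_sub_cancel_right] at h4
    · refine le_trans (le_of_eq ?_) (a3 x hx)
      unfold vertical
      refine lintegral_congr fun t => ?_
      have e : (x : ℂ) + t * Complex.I + centre i = centre i + x + t * Complex.I := by ring
      beta_reduce
      rw [e]
  · obtain ⟨ℓ, a1, a2, a3⟩ := h2 hm
    refine ⟨fun s => ℓ (s - centre i), hlog ℓ a1 a2, fun s hs => ?_⟩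
    have h3 : 0 < (s - (centre i : ℂ)).re := by rw [shift_re']; linarith
    have h4 := a3 _ h3
    rw [shift_re'] at h4
    exact h4

end Pool.Agent.Results.MP_148101_nt.HardySpaceCriterion
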