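import Pool.Agent.V11333.PureSys
import Pool.Agent.V11333.Mero2

/-!
# Meromorphic continuation of L-functions of motives from the real axis by bounds from one side

Let `M` be a pure motive over a number field `K`, for example `M = h(X)` for a smooth projective variety `X`,
and let `α_{v,1}, …, α_{v,N}` be the eigenvalues of Frobenius on `H^i(M)` for the primes `v` of a set `S` of
primes (in the main case all primes of good reduction; the other Euler factors are meromorphic and have no
zeros). Let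

`L(s) = ∏_{v ∈ S} ∏_j (1 - α_{v,j} q_v^{-s})⁻¹`, `Re s > i/2 + 1`, `c = (i + 1)/2`,

`P(x) = ∏_{v ∈ S, q_v ≤ x} |∏_j (1 - α_{v,j} q_v^{-c})|`.

Let `0 ≤ al`, and let a divisor on the real axis be given: finitely many real points `c + β`, `0 < β ≤ 1/2`, and
orders `m(β) ∈ ℤ` (so poles at `c + 1/2 = i/2 + 1`, the edge of the region of convergence, are allowed). A zero or
a pole of `L` at `c + β` contributes to `log P(x)` the main term `m(β) Ein(β log x)`,
`Ein(z) = ∫_0^z (e^t - 1) dt/t = ∑_{k ≥ 1} z^k / (k k!)`, which is about `m(β) x^β / (β log x)`. Let `R(x)` be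
`log P(x)` minus all main terms. The theorem:

1. The following are equivalent:
   (a) `∫_0^∞ |R(e^t)| e^{-wt} dt < ∞` for all `w > al`;
   (b) `L(s) = F(s) ∏_β (s - c - β)^{m(β)}` at the real `s > i/2 + 1` for a function `F` which is analytic at all REAL
       points `s > c + al`, and `∫_0^∞ max (R(e^t), 0) e^{-wt} dt < ∞` for all `w > al`;
   (c) `L(s) = F(s)⁻¹ ∏_β (s - c - β)^{m(β)}` with `F` of the same kind, and
       `∫_0^∞ max (-R(e^t), 0) e^{-wt} dt < ∞` for all `w > al`.
   If they hold, then `L(s)` has a meromorphic continuation to the half plane `Re s > c + al` and it is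
   `G(s) ∏_β (s - c - β)^{m(β)}` with `G` holomorphic and without zeros there: the divisor of `L` in this half plane is
   exactly the given one.
2. In (b) the bound `R(x) ≤ C x^{al + ε}` and in (c) the bound `R(x) ≥ -C x^{al + ε}` for all `ε > 0` suffice.

So a meromorphic continuation of `L` along the real axis and a bound from ONE side for the partial Euler products
at the centre together give the meromorphic continuation to the half plane, although `F` may have zeros a priori
in (b) and `L/∏` may have poles in (c). For the empty divisor this is the criterion for a holomorphic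
continuation without zeros.

Proof. Landau's theorem in the form of `Pool.Agent.V11333.OneSide1`, with the continuation given only along the
real axis, applied to `R(e^t)`: the Laplace transform of `Ein(β u)` is `-log (1 - β/w)/w`.
-/

set_option autoImplicit false

namespace Pool.Agent.Results.MP_148101_nt.OneSidedMeromorphic

open Filter Topology Set NumberField IsDedekindDomain MeasureTheory

variable {K : Type} [Field K] [NumberField K] {n N : ℕ}

/-- The norm `q_v`. -/
noncomputable def nrm (v : HeightOneSpectrum (𝓞 K)) : ℕ := Ideal.absNorm v.asIdeal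

/-- The set `X` of homogeneous polynomials over `𝓞_K` in `n` variables gives a projective variety over
`K`.  For a field `κ` with `q` elements and a homomorphism `𝓞_K → κ` this is `(q - 1)` times the number
of the points of `X` with coordinates in `κ`: the number of the nonzero solutions of the equations. -/
noncomputable def cone (X : Set (MvPolynomial (Fin n) (𝓞 K))) {κ : Type} [Field κ]
    (φ : 𝓞 K →+* κ) : ℕ :=
  Nat.card {u : Fin n → κ // u ≠ 0 ∧ ∀ f ∈ X, MvPolynomial.eval₂ φ u f = 0}

/-- `α_1, …, α_N` are the eigenvalues of the geometric Frobenius at the prime `v` of `K` on `H^i(X)`,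
for a variety `X` of dimension `d`: there are finite multisets `β_k` of complex numbers of absolute
value `q_v^{k/2}`, `k = 0, …, 2d`, with `β_i = {α_1, …, α_N}`, such that for every finite extension
`κ` of the residue field of `v`, of degree `e`, the number of the points of `X` with coordinates in
`κ` is `∑ (-1)^k ∑_{z ∈ β_k} z^e`.  By the theorem of Deligne such `β_k` exist at almost all primes
if `X` is smooth, with `N` the `i`-th Betti number of `X`; for `k ≤ 2d` they are unique. -/
def IsFrobenius (X : Set (MvPolynomial (Fin n) (𝓞 K))) (d i : ℕ)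
    (v : HeightOneSpectrum (𝓞 K)) (α : Fin N → ℂ) : Prop :=
  ∃ β : ℕ → Multiset ℂ, β i = Finset.univ.val.map α ∧
    (∀ k, ∀ z ∈ β k, ‖z‖ = (nrm v : ℝ) ^ ((k : ℝ) / 2)) ∧
    ∀ (κ : Type) [Field κ] [Finite κ] (φ : 𝓞 K →+* κ) (e : ℕ), RingHom.ker φ = v.asIdeal →
      Nat.card κ = nrm v ^ e →
      (cone X φ : ℂ) = ((nrm v : ℂ) ^ e - 1) *
          ∑ k ∈ Finset.range (2 * d + 1), (-1 : ℂ) ^ k * ((β k).map (fun z => z ^ e)).sum

variable {S : Set (HeightOneSpectrum (𝓞 K))}

/-- The Euler factor `∏_j (1 - α_{v,j} q_v^{-s})⁻¹`. -/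
noncomputable def factor (α : S → Fin N → ℂ) (v : S) (s : ℂ) : ℂ :=
  ∏ j, (1 - α v j * (nrm v.1 : ℂ) ^ (-s))⁻¹

/-- The central point `(i + 1)/2`. -/
noncomputable def centre (i : ℕ) : ℝ := ((i : ℝ) + 1) / 2

/-- `α` is a pure system of weight `i` with real traces: `|α_{v,j}| ≤ q_v^{i/2}` for all `v ∈ S` and `j`, and the
traces `∑_j α_{v,j}^k` are real. By the theorem of Deligne this holds for the eigenvalues of Frobenius
on `H^i(M)` for every Chow motive `M` over `K` at the primes of good reduction (the traces are rational). -/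
def Pure (i : ℕ) (α : S → Fin N → ℂ) : Prop :=
  (∀ v j, ‖α v j‖ ≤ (nrm v.1 : ℝ) ^ ((i : ℝ) / 2)) ∧ ∀ v k, (∑ j, α v j ^ k).im = 0

/-- `log P(x)`, the sum of `log |∏_j (1 - α_{v,j} q_v^{-c})|` over the `v ∈ S` with `q_v ≤ x`. -/
noncomputable def logP (i : ℕ) (α : S → Fin N → ℂ) (x : ℝ) : ℝ :=
  ∑ᶠ (v : S) (_ : (nrm v.1 : ℝ) ≤ x),
    Real.log ‖∏ j, (1 - α v j * (nrm v.1 : ℂ) ^ (-(centre i : ℂ)))‖

/-- `Ein(z) = ∫_0^z (e^t - 1) dt/t = ∑_{k ≥ 0} z^{k+1} / ((k+1) (k+1)!)`. -/
noncomputable def Ein (z : ℝ) : ℝ := ∑' k : ℕ, z ^ (k + 1) / ((k + 1) * (k + 1).factorial)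

/-- `R(x)`, the difference of `log P(x)` and the main terms `m(β) Ein(β log x)`, `β ∈ T`. -/
noncomputable def rest (i : ℕ) (α : S → Fin N → ℂ) (T : Finset ℝ) (m : ℝ → ℤ) (x : ℝ) : ℝ :=
  logP i α x - ∑ β ∈ T, m β * Ein (β * Real.log x)

/-- The function `∏_{β ∈ T} (s - c - β)^{m(β)}`. -/
noncomputable def divisor (i : ℕ) (T : Finset ℝ) (m : ℝ → ℤ) (s : ℂ) : ℂ :=
  ∏ β ∈ T, (s - centre i - β) ^ m β

/-- `L(s) = F(s) ∏ (s - c - β)^{m(β)}` at the real `s > i/2 + 1` for a function `F` which is analytic at all real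
points `x > c + al`. -/
def RealContinues (i : ℕ) (α : S → Fin N → ℂ) (al : ℝ) (T : Finset ℝ) (m : ℝ → ℤ) : Prop :=
  ∃ F : ℂ → ℂ, (∀ x : ℝ, centre i + al < x → AnalyticAt ℂ F x) ∧
    ∀ x : ℝ, (i : ℝ) / 2 + 1 < x → HasProd (fun v : S => factor α v x) (F x * divisor i T m x)

/-- The same with `F(s)⁻¹` in the place of `F(s)`. -/
def RealContinuesInv (i : ℕ) (α : S → Fin N → ℂ) (al : ℝ) (T : Finset ℝ) (m : ℝ → ℤ) : Prop :=
  ∃ F : ℂ → ℂ, (∀ x : ℝ, centre i + al < x → AnalyticAt ℂ F x) ∧
    ∀ x : ℝ, (i : ℝ) / 2 + 1 < x → HasProd (fun v : S => factor α v x) ((F x)⁻¹ * divisor i T m x)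

/-- `L(s)` has the meromorphic continuation `G(s) ∏ (s - c - β)^{m(β)}` to `Re s > c + al` with a holomorphic
function `G` without zeros there. -/
def Continues (i : ℕ) (α : S → Fin N → ℂ) (al : ℝ) (T : Finset ℝ) (m : ℝ → ℤ) : Prop :=
  ∃ G : ℂ → ℂ, (∀ s : ℂ, centre i + al < s.re → DifferentiableAt ℂ G s ∧ G s ≠ 0) ∧
    ∀ s : ℂ, (i : ℝ) / 2 + 1 < s.re → HasProd (fun v : S => factor α v s) (G s * divisor i T m s)

/-- `∫_0^∞ |f(t)| e^{-wt} dt < ∞` for all `w > al`. -/
def LaplaceConverges (f : ℝ → ℝ) (al : ℝ) : Prop :=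
  ∀ w : ℝ, al < w → IntegrableOn (fun t : ℝ => f t * Real.exp (-(w * t))) (Ioi 0)

open Pool.Agent.TH942.ES Pool.Agent.V11333 Pool.Agent.V11333.OneSide
open Pool.Agent.W263.BSD (LInt LInt.neg LInt.posPart)

section tools

variable {i : ℕ} {α : S → Fin N → ℂ} {al : ℝ} {T : Finset ℝ} {m : ℝ → ℤ}

theorem rest_exp (h : Pure i α) : (fun t => rest i α T m (Real.exp t)) =
    Mero.aa (fun v : S => Pool.Agent.H921R2.TatePole.nm v.1) (EVS.nal i α) T m := by
  funext t
  unfold rest Mero.aa
  rw [Real.log_exp]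
  congr 1
  unfold logP st SP
  refine finsum_congr fun v => finsum_congr fun _ => ?_
  exact (PS.cv_log (i := i) (α := α) h v).symm

theorem hasProd_iff (h : Pure i α) {s : ℂ} (hs : (i : ℝ) / 2 + 1 < s.re) (y : ℂ) :
    HasProd (fun v : S => factor α v s) y ↔
      y = LE (fun v : S => Pool.Agent.H921R2.TatePole.nm v.1) (EVS.nal i α) (s - centre i) :=
  PS.hasProd_iff (i := i) (α := α) h hs y

theorem div_shift (x : ℂ) : divisor i T m (x + centre i) = ∏ β ∈ T, (x - β) ^ m β := by
  unfold divisor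
  rw [add_sub_cancel_right]

/-- the shift on the real axis -/
theorem shift (h : Pure i α) (g : ℂ → ℂ) {F : ℂ → ℂ}
    (h1 : ∀ x : ℝ, centre i + al < x → AnalyticAt ℂ F x)
    (h2 : ∀ x : ℝ, (i : ℝ) / 2 + 1 < x → HasProd (fun v : S => factor α v x)
      (g (F x) * divisor i T m x)) :
    (∀ x : ℝ, al < x → AnalyticAt ℂ (fun s => F (s + centre i)) x) ∧
      ∀ x : ℝ, 1 / 2 < x → g (F ((x : ℂ) + centre i)) * ∏ β ∈ T, ((x : ℂ) - β) ^ m β =
        LE (fun v : S => Pool.Agent.H921R2.TatePole.nm v.1) (EVS.nal i α) x := by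
  refine ⟨fun x hx => ?_, fun x hx => ?_⟩
  · have e : AnalyticAt ℂ F ((x : ℂ) + centre i) := by
      have := h1 (x + centre i) (by linarith)
      push_cast at this
      exact this
    exact AnalyticAt.comp (g := F) (f := fun s : ℂ => s + centre i) e
      (analyticAt_id.add analyticAt_const)
  · have e := h2 (x + centre i) (by unfold centre; linarith)
    rw [hasProd_iff h (by rw [Complex.ofReal_re]; unfold centre; linarith)] at e
    push_cast at e
    rw [div_shift, add_sub_cancel_right] at e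
    exact e

theorem neg_laplace {f : ℝ → ℝ} (h : LaplaceConverges (fun t => -f t) al) :
    LaplaceConverges f al := fun w hw => by
  have h1 : LInt (fun t => -f t) w := h w hw
  have h2 := h1.neg
  simp only [neg_neg] at h2
  exact h2

/-- the continuation from the convergence of the Laplace integral -/
theorem continues_of (h : Pure i α) (hal : 0 ≤ al) (hT : ∀ β ∈ T, 0 < β ∧ β ≤ 1 / 2)
    (hc : LaplaceConverges (fun t => rest i α T m (Real.exp t)) al) : Continues i α al T m := by
  rw [rest_exp h] at hc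
  by_cases hal2 : al < 1 / 2
  · obtain ⟨G, h1, h2⟩ := Mero.mero_cont (PS.sys (i := i) (α := α) h) hal hal2
      (fun β hβ => (hT β hβ).1) (fun β hβ => (hT β hβ).2) hc
    refine ⟨fun s => G (s - centre i), fun s hs => ?_, fun s hs => ?_⟩
    · have h3 : al < (s - centre i).re := by
        rw [Complex.sub_re, Complex.ofReal_re]
        linarith
      exact ⟨(h1 _ h3).1.comp s (by fun_prop), (h1 _ h3).2⟩
    · have h3 : 1 / 2 < (s - centre i).re := by
        rw [Complex.sub_re, Complex.ofReal_re]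
        unfold centre
        linarith
      rw [hasProd_iff h hs]
      exact h2 _ h3
  · have hE := PS.sys (i := i) (α := α) h
    have hne : ∀ s : ℂ, centre i + al < s.re → ∀ β ∈ T, s - centre i - (β : ℂ) ≠ 0 := by
      intro s hs β hβ h0
      have h1 := congrArg Complex.re h0
      rw [Complex.sub_re, Complex.sub_re, Complex.ofReal_re, Complex.ofReal_re, Complex.zero_re] at h1
      have := (hT β hβ).2
      linarith
    refine ⟨fun s => LE (fun v : S => Pool.Agent.H921R2.TatePole.nm v.1) (EVS.nal i α)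
      (s - centre i) * (divisor i T m s)⁻¹, fun s hs => ?_, fun s hs => ?_⟩
    · have h3 : 1 / 2 < (s - centre i).re := by
        rw [Complex.sub_re, Complex.ofReal_re]
        linarith
      have h4 := hE.LE_diff h3
      have h5 : divisor i T m s ≠ 0 :=
        Finset.prod_ne_zero_iff.mpr fun β hβ => zpow_ne_zero _ (hne s hs β hβ)
      have h6 : DifferentiableAt ℂ (divisor i T m) s :=
        DifferentiableAt.fun_finsetProd fun β hβ =>
          ((differentiableAt_id.sub_const _).sub_const _).zpow (Or.inl (hne s hs β hβ))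
      have h7 : DifferentiableAt ℂ (fun s : ℂ => s - centre i) s := by fun_prop
      have h8 : DifferentiableAt ℂ (fun s : ℂ =>
          LE (fun v : S => Pool.Agent.H921R2.TatePole.nm v.1) (EVS.nal i α) (s - centre i)) s :=
        DifferentiableAt.comp (g := LE (fun v : S => Pool.Agent.H921R2.TatePole.nm v.1)
          (EVS.nal i α)) (f := fun s : ℂ => s - centre i) s h4.1 h7
      exact ⟨h8.mul (h6.inv h5), mul_ne_zero h4.2 (inv_ne_zero h5)⟩
    · have hs' : ∀ β ∈ T, s - centre i - (β : ℂ) ≠ 0 := by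
        intro β hβ h0
        have h1 := congrArg Complex.re h0
        rw [Complex.sub_re, Complex.sub_re, Complex.ofReal_re, Complex.ofReal_re, Complex.zero_re] at h1
        have := (hT β hβ).2
        unfold centre at h1
        linarith
      have h5 : divisor i T m s ≠ 0 :=
        Finset.prod_ne_zero_iff.mpr fun β hβ => zpow_ne_zero _ (hs' β hβ)
      rw [inv_mul_cancel_right₀ h5, hasProd_iff h hs]

/-- the continuation gives the two continuations along the real axis -/
theorem real_of_cont (h : Continues i α al T m) :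
    RealContinues i α al T m ∧ RealContinuesInv i α al T m := by
  obtain ⟨G, h1, h2⟩ := h
  have hG : ∀ x : ℝ, centre i + al < x → AnalyticAt ℂ G x := fun x hx =>
    an_of_half (fun z hz => (h1 z hz).1) (by simpa using hx)
  refine ⟨⟨G, hG, fun x hx => h2 x (by rwa [Complex.ofReal_re])⟩,
    ⟨fun s => (G s)⁻¹, fun x hx => (hG x hx).inv (h1 x (by rwa [Complex.ofReal_re])).2,
      fun x hx => ?_⟩⟩
  rw [inv_inv]
  exact h2 x (by rwa [Complex.ofReal_re])

/-- a pointwise bound for `f(x)` in terms of `t = log x` -/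
theorem pointwise {f : ℝ → ℝ}
    (h : ∀ ε : ℝ, 0 < ε → ∃ C : ℝ, ∀ᶠ x : ℝ in atTop, f x ≤ C * x ^ (al + ε)) :
    ∀ ε : ℝ, 0 < ε → ∃ C y₀ : ℝ, ∀ y, y₀ ≤ y → f (Real.exp y) ≤ C * Real.exp ((al + ε) * y) := by
  intro ε hε
  obtain ⟨C, hC⟩ := h ε hε
  obtain ⟨y₀, hy₀⟩ := (Real.tendsto_exp_atTop.eventually hC).exists_forall_of_atTop
  refine ⟨C, y₀, fun y hy => ?_⟩
  have h1 := hy₀ y hy
  rwa [← Real.exp_mul, mul_comm y] at h1

/-- the exponential bound -/
theorem aa_bound (h : Pure i α) (hT : ∀ β ∈ T, 0 < β) : ∃ K₀ x₀ : ℝ, 0 ≤ K₀ ∧ 0 ≤ x₀ ∧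
    ∀ u, 0 < u → |Mero.aa (fun v : S => Pool.Agent.H921R2.TatePole.nm v.1) (EVS.nal i α) T m u| ≤
      K₀ * Real.exp (x₀ * u) := by
  obtain ⟨K₁, hK₁, hb₁⟩ := st_bound (PS.sys (i := i) (α := α) h) (σ := 1) (by norm_num)
  obtain ⟨K₂, x₂, hK₂, hx₂, hb₂⟩ := Mero.MM_bound (n := m) hT
  refine ⟨K₁ + K₂, 1 + x₂, by positivity, by positivity, fun u hu => ?_⟩
  unfold Mero.aa
  have h1 := hb₁ u
  have h2 := hb₂ u hu
  have h3 : Real.exp (1 * u) ≤ Real.exp ((1 + x₂) * u) :=
    Real.exp_le_exp.mpr (by nlinarith)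
  have h4 : Real.exp (x₂ * u) ≤ Real.exp ((1 + x₂) * u) :=
    Real.exp_le_exp.mpr (by nlinarith)
  refine (abs_sub _ _).trans ?_
  rw [add_mul]
  exact add_le_add (h1.trans (mul_le_mul_of_nonneg_left h3 hK₁))
    (h2.trans (mul_le_mul_of_nonneg_left h4 hK₂))

end tools

/-- **Theorem.** (A) Let `α` be a pure system of weight `i` with real traces at the primes `v ∈ S` of a number
field, `al ≥ 0`, `T` a finite set of real numbers `0 < β ≤ 1/2`, and `m : T → ℤ`.

(1) The following are equivalent: the Laplace integral of `R(e^t)` converges absolutely for all `w > al`;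
`L(s)/∏ (s - c - β)^{m(β)}` has an analytic continuation along the real axis to all `s > c + al` and the Laplace
integral of `max (R(e^t), 0)` converges for all `w > al`; its inverse has an analytic continuation along the real
axis to all `s > c + al` and the Laplace integral of `max (-R(e^t), 0)` converges for all `w > al`. In this case `L`
has a meromorphic continuation `G(s) ∏ (s - c - β)^{m(β)}` to `Re s > c + al`, `G` holomorphic and without zeros.
(2) This continuation exists if `L(s)/∏ (s - c - β)^{m(β)}` has an analytic continuation along the real axis to all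
`s > c + al` and `R(x) ≤ C x^{al + ε}` for all `ε > 0`, and if its inverse has such a continuation and
`R(x) ≥ -C x^{al + ε}` for all `ε > 0`.

(B) The eigenvalues of Frobenius on `H^i(X)`, `X` a projective variety of dimension `d`, `i ≤ 2d`, are such
systems. -/
theorem result :
    (∀ (S : Set (HeightOneSpectrum (𝓞 K))) (N i : ℕ) (α : S → Fin N → ℂ), Pure i α →
      ∀ (al : ℝ) (T : Finset ℝ) (m : ℝ → ℤ), 0 ≤ al → (∀ β ∈ T, 0 < β ∧ β ≤ 1 / 2) →
        List.TFAE [
          LaplaceConverges (fun t => rest i α T m (Real.exp t)) al,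
          RealContinues i α al T m ∧
            LaplaceConverges (fun t => max (rest i α T m (Real.exp t)) 0) al,
          RealContinuesInv i α al T m ∧
            LaplaceConverges (fun t => max (-rest i α T m (Real.exp t)) 0) al] ∧
        (LaplaceConverges (fun t => rest i α T m (Real.exp t)) al → Continues i α al T m) ∧
        (((RealContinues i α al T m ∧ ∀ ε : ℝ, 0 < ε → ∃ C : ℝ, ∀ᶠ x : ℝ in atTop,
            rest i α T m x ≤ C * x ^ (al + ε)) ∨
          (RealContinuesInv i α al T m ∧ ∀ ε : ℝ, 0 < ε → ∃ C : ℝ, ∀ᶠ x : ℝ in atTop,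
            -(C * x ^ (al + ε)) ≤ rest i α T m x)) → Continues i α al T m)) ∧
    ∀ (X : Set (MvPolynomial (Fin n) (𝓞 K))) (d i : ℕ), i ≤ 2 * d →
      ∀ (S : Set (HeightOneSpectrum (𝓞 K))) (N : ℕ) (α : S → Fin N → ℂ),
        (∀ v, IsFrobenius X d i v.1 (α v)) → Pure i α := by
  refine ⟨fun S N i α h al T m hal hT => ?_, fun X d i hi S N α h => PS.pure_of_frobenius hi h⟩
  have E := PS.sys (i := i) (α := α) h
  have hT1 : ∀ β ∈ T, 0 < β := fun β hβ => (hT β hβ).1
  set NN : S → ℕ := fun v => Pool.Agent.H921R2.TatePole.nm v.1 with hNN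
  have e0 : (fun t => rest i α T m (Real.exp t)) = Mero.aa NN (EVS.nal i α) T m := rest_exp h
  have e1 : (fun t => max (rest i α T m (Real.exp t)) 0) =
      fun t => max (Mero.aa NN (EVS.nal i α) T m t) 0 := by
    funext t
    rw [← e0]
  have e2 : (fun t => max (-rest i α T m (Real.exp t)) 0) =
      fun t => max (-Mero.aa NN (EVS.nal i α) T m t) 0 := by
    funext t
    rw [← e0]
  have hcont := fun hc => continues_of (al := al) (T := T) (m := m) h hal hT hc
  refine ⟨?_, hcont, ?_⟩
  · tfae_have 1 → 2 := by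
      intro hc
      refine ⟨(real_of_cont (hcont hc)).1, ?_⟩
      rw [e1]
      rw [e0] at hc
      exact fun w hw => LInt.posPart (Mero.aa_meas E) (hc w hw)
    tfae_have 1 → 3 := by
      intro hc
      refine ⟨(real_of_cont (hcont hc)).2, ?_⟩
      rw [e2]
      rw [e0] at hc
      exact fun w hw => LInt.posPart (Mero.aa_meas E).neg (LInt.neg (hc w hw))
    tfae_have 2 → 1 := by
      rintro ⟨⟨F, h1, h2⟩, h3⟩
      rw [e1] at h3
      rw [e0]
      obtain ⟨h4, h5⟩ := shift h id h1 h2
      exact (Mero.mdata_upper E hal hT1 h4 h5).core_upper le_rfl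
        ((Mero.aa_meas E).max measurable_const) h3 fun u _ => le_max_left _ _
    tfae_have 3 → 1 := by
      rintro ⟨⟨F, h1, h2⟩, h3⟩
      rw [e2] at h3
      rw [e0]
      obtain ⟨h4, h5⟩ := shift h (fun z => z⁻¹) h1 h2
      exact neg_laplace ((Mero.mdata_lower E hal hT1 h4 h5).core_upper le_rfl
        ((Mero.aa_meas E).neg.max measurable_const) h3 fun u _ => le_max_left _ _)
    tfae_finish
  · intro h3
    refine hcont ?_
    obtain ⟨K₀, x₀, hK₀, hx₀, hb⟩ := aa_bound (m := m) h hT1
    rcases h3 with ⟨⟨F, h1, h2⟩, h3⟩ | ⟨⟨F, h1, h2⟩, h3⟩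
    · obtain ⟨h4, h5⟩ := shift h id h1 h2
      rw [e0]
      refine (Mero.mdata_upper E hal hT1 h4 h5).conv hK₀ hx₀
        (fun u hu => (le_abs_self _).trans (hb u hu)) ?_
      have h6 := pointwise h3
      intro ε hε
      obtain ⟨C, y₀, hC⟩ := h6 ε hε
      refine ⟨C, y₀, fun y hy => ?_⟩
      rw [← e0]
      exact hC y hy
    · obtain ⟨h4, h5⟩ := shift h (fun z => z⁻¹) h1 h2
      rw [e0]
      refine neg_laplace ((Mero.mdata_lower E hal hT1 h4 h5).conv hK₀ hx₀
        (fun u hu => (neg_le_abs _).trans (hb u hu)) ?_)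
      have h6 := pointwise (f := fun x => -rest i α T m x) (al := al) (fun ε hε => by
        obtain ⟨C, hC⟩ := h3 ε hε
        exact ⟨C, hC.mono fun x hx => by linarith⟩)
      intro ε hε
      obtain ⟨C, y₀, hC⟩ := h6 ε hε
      refine ⟨C, y₀, fun y hy => ?_⟩
      rw [← e0]
      exact hC y hy

end Pool.Agent.Results.MP_148101_nt.OneSidedMeromorphic
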