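import Pool.Agent.H2N.TL.Core

/-!
# Poles and zeros of the tensor powers on the whole edge line

`X` is a smooth projective variety over a number field `K`, for example over `K = ℚ`, `H = H^i(X)`, of
dimension `N`, and `χ` an irreducible Artin representation of `K`, of any dimension.  The tensor power
`H^{⊗ r}` is a part of `H^{ri}(X^r)`, and `L(H^{⊗ r} ⊗ χ, s)` is an `L`-function as in the problem.  The
theorem is about its poles and zeros on the edge line `Re s = r i / 2 + 1`, the boundary of the half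
plane of absolute convergence; for odd `r i` no poles are expected there.  The point of height `τ` is
`s_{r,τ} = r i / 2 + 1 + i τ`.  Nothing is assumed about the automorphy of `H`.

The definitions are in `Pool.Agent.H2N.TL.Defs`, `Pool.Agent.W353.AT.Defs`, `Pool.Agent.W353.EH.Defs` and
`Pool.Agent.W353.EF.Defs`: `IsPowerAt X d i N r χ τ B`: the `B v` are the Euler factors of
`L(H^{⊗ r} ⊗ χ, s)` (arbitrary ones, regular at `s_{r,τ}`, at finitely many primes); `LFun B`: the Euler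
product; `HasOrder (r i) τ B k`: it has a meromorphic continuation to a neighbourhood of `s_{r,τ}`, of
order `k` there; `size (r i) τ B ε`: `log |L(s_{r,τ} + ε)| / log (1 / ε)`; `heightFactor τ`: `1` if
`τ = 0` and `2 / π` if `τ ≠ 0`.
-/

set_option autoImplicit false

namespace Pool.Agent.Results.MP_148101_nt.PolesPropagateOnTheLine

open NumberField IsDedekindDomain Filter Topology Polynomial
open Pool.Agent.W353.EF (LFun)
open Pool.Agent.W353.EH (edgePoint size HasOrder)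
open Pool.Agent.W353.AT (IsArtin)
open Pool.Agent.H2N.TL (IsPowerAt heightFactor)

/-- Let `χ` be an irreducible Artin representation of `K`, of any dimension `n`, and `τ` real; `f = 1` if
`τ = 0` and `f = 2 / π` if `τ ≠ 0`.
* (1) If `|∑ c_r t ^ r| ≤ b` on `[-N, N]`, then `|∑ c_r x_r(ε)| ≤ f b + η` for all `η > 0` and all small
  `ε > 0`, with `x_r(ε) = log |L(H^{⊗ r} ⊗ χ, s_{r,τ} + ε)| / log (1 / ε)` (no continuation is assumed; the
  Euler products do not vanish there), and `|∑ c_r k_r| ≤ f b` for the orders `k_r` at `s_{r,τ}`.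
* (2) Let `q ≥ 2` be even and `r ≥ 1`.  If the order of `L(H^{⊗ r} ⊗ χ, s)` at `s_{r,τ}` is not zero, then for
  infinitely many `j ≥ 1` the function `L(H^{⊗ (r + q j)} ⊗ χ, s)` does not have the order `0` at the point
  of the same height `τ` of its edge line.
* (3) Effective form: if `(f N ^ r) ^ q < (⌊q m / r⌋ + 1) ^ r` and `L(H^{⊗ (r + q j)} ⊗ χ, s)` has the order `0`
  at height `τ` for `1 ≤ j ≤ m`, then the order for `r`, if it exists, is `0`.
* (4) If `R > f N` is odd and `L(H^{⊗ r} ⊗ χ, s)` has the order `0` at height `τ` for all odd `r` with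
  `3 ≤ r ≤ R`, then the order of `L(H ⊗ χ, s)` at height `τ`, if it exists, is `0`.
* (5) For finitely many different pairs `(χ_k, τ_k)`, `χ_k` irreducible, the sum of the squares of the
  sizes of `L(H^{⊗ r} ⊗ χ_k, s)` at `s_{r,τ_k}` is at most the size of `L(H^{⊗ 2r}, s)` at its edge `r i + 1`,
  up to `η`; if this function has the order `-p` there, then `∑ m_k² ≤ p` for the orders `m_k` of the
  `L(H^{⊗ r} ⊗ χ_k, s)`.
* (6) If, moreover, `τ_k > 0` and the characters of the `χ_k` are real, the same holds with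
  `2 ∑ m_k² ≤ p`.  So, if `L(H^{⊗ 2r}, s)` has at most a simple pole at its edge, then `L(H^{⊗ r} ⊗ χ, s)` has
  neither a pole nor a zero of height `τ > 0` on its edge line, for all `χ` with real character. -/
theorem result (K : Type) [Field K] [NumberField K] (l d i N : ℕ)
    (X : Set (MvPolynomial (Fin l) (𝓞 K))) (hi : i ≤ 2 * d) :
    (∀ (n : ℕ) (χ : Representation ℂ Gal(AlgebraicClosure K/K) (Fin n → ℂ)), IsArtin χ →
      χ.IsIrreducible → ∀ τ : ℝ,
      (∀ (S : Finset ℕ) (c : ℕ → ℝ) (b : ℝ),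
        (∀ t : ℝ, |t| ≤ N → |∑ r ∈ S, c r * t ^ r| ≤ b) →
        ∀ B : ℕ → HeightOneSpectrum (𝓞 K) → ℂ[X], (∀ r ∈ S, IsPowerAt X d i N r χ τ (B r)) →
          (∀ r ∈ S, ∀ᶠ ε : ℝ in 𝓝[>] 0, LFun (B r) (edgePoint (r * i) τ + ε) ≠ 0) ∧
          (∀ η : ℝ, 0 < η → ∀ᶠ ε : ℝ in 𝓝[>] 0,
            |∑ r ∈ S, c r * size (r * i) τ (B r) ε| ≤ b * heightFactor τ + η) ∧
          ∀ k : ℕ → ℤ, (∀ r ∈ S, HasOrder (r * i) τ (B r) (k r)) →
            |∑ r ∈ S, c r * k r| ≤ b * heightFactor τ) ∧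
      (∀ q r : ℕ, Even q → 1 ≤ q → 1 ≤ r → ∀ B : ℕ → HeightOneSpectrum (𝓞 K) → ℂ[X],
        (∀ j, IsPowerAt X d i N (r + q * j) χ τ (B j)) →
        (∀ k : ℤ, HasOrder (r * i) τ (B 0) k → k ≠ 0 →
          {j : ℕ | 1 ≤ j ∧ ¬ HasOrder ((r + q * j) * i) τ (B j) 0}.Infinite) ∧
        ∀ m : ℕ, (heightFactor τ * (N : ℝ) ^ r) ^ q < ((q * m / r : ℕ) + 1 : ℝ) ^ r →
          (∀ j, 1 ≤ j → j ≤ m → HasOrder ((r + q * j) * i) τ (B j) 0) →
          ∀ k : ℤ, HasOrder (r * i) τ (B 0) k → k = 0) ∧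
      (∀ R : ℕ, Odd R → heightFactor τ * N < R → ∀ B : ℕ → HeightOneSpectrum (𝓞 K) → ℂ[X],
        (∀ r, Odd r → r ≤ R → IsPowerAt X d i N r χ τ (B r)) →
        (∀ r, Odd r → 3 ≤ r → r ≤ R → HasOrder (r * i) τ (B r) 0) →
        ∀ k : ℤ, HasOrder (1 * i) τ (B 1) k → k = 0)) ∧
    ∀ (r : ℕ) (B₂ : HeightOneSpectrum (𝓞 K) → ℂ[X]),
      IsPowerAt X d i N (2 * r)
        (1 : Representation ℂ Gal(AlgebraicClosure K/K) (Fin 1 → ℂ)) 0 B₂ →
      ∀ (κ : Type) [Fintype κ] (n : κ → ℕ)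
        (χ : ∀ k, Representation ℂ Gal(AlgebraicClosure K/K) (Fin (n k) → ℂ)) (τ : κ → ℝ),
        (∀ k, IsArtin (χ k)) → (∀ k, (χ k).IsIrreducible) →
        (∀ k k', k ≠ k' → τ k = τ k' → IsEmpty ((χ k).Equiv (χ k'))) →
        ∀ B : κ → HeightOneSpectrum (𝓞 K) → ℂ[X],
        (∀ k, IsPowerAt X d i N r (χ k) (τ k) (B k)) →
        ((∀ η : ℝ, 0 < η → ∀ᶠ ε : ℝ in 𝓝[>] 0,
            ∑ k, (size (r * i) (τ k) (B k) ε) ^ 2 ≤ size (2 * r * i) 0 B₂ ε + η) ∧
          ∀ (p : ℤ) (m : κ → ℤ), HasOrder (2 * r * i) 0 B₂ (-p) →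
            (∀ k, HasOrder (r * i) (τ k) (B k) (m k)) → ∑ k, m k ^ 2 ≤ p) ∧
        ((∀ k, 0 < τ k) → (∀ k g, ((χ k).character g).im = 0) →
          (∀ η : ℝ, 0 < η → ∀ᶠ ε : ℝ in 𝓝[>] 0,
            2 * ∑ k, (size (r * i) (τ k) (B k) ε) ^ 2 ≤ size (2 * r * i) 0 B₂ ε + η) ∧
          ∀ (p : ℤ) (m : κ → ℤ), HasOrder (2 * r * i) 0 B₂ (-p) →
            (∀ k, HasOrder (r * i) (τ k) (B k) (m k)) → 2 * ∑ k, m k ^ 2 ≤ p) := by
  refine ⟨fun n χ hχ hirr τ => ⟨fun S c b hb B hB => ⟨fun r hr =>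
    Pool.Agent.H2N.TL.nonvanish hi χ hχ τ (hB r hr), fun η hη =>
    Pool.Agent.H2N.TL.poly_size hi χ hχ hirr τ S (fun r => r) c hb B hB hη, fun k hk =>
    Pool.Agent.H2N.TL.poly_order hi χ hχ hirr τ S (fun r => r) c hb B hB k hk⟩,
    fun q r hq hq1 hr B hB => ⟨fun k hk hk0 =>
      Pool.Agent.H2N.TL.prog_infinite hi χ hχ hirr τ hr hq hq1 B hB k hk0 hk,
      fun m hm h0 k hk => Pool.Agent.H2N.TL.prog_zero hi χ hχ hirr τ hr hq hq1 B m hm
        (fun j _ => hB j) h0 k hk⟩,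
    fun R hR hlt B hB h0 k hk => Pool.Agent.H2N.TL.odd_zero hi χ hχ hirr τ hR hlt B hB h0 k hk⟩,
    fun r B₂ hB₂ κ _ n χ τ hχ hirr hne B hB =>
      ⟨Pool.Agent.H2N.TL.bessel_sizes hi r hB₂ χ hχ hirr τ hne B hB, fun hτ hreal =>
        Pool.Agent.H2N.TL.bessel_real hi r hB₂ χ hχ hirr τ hne hτ hreal B hB⟩⟩

end Pool.Agent.Results.MP_148101_nt.PolesPropagateOnTheLine
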