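import Pool.Agent.W353.EH.Main

/-!
# Poles and zeros on the edge line over the subfields of a closure with symmetric Galois group

`X` is a smooth projective variety over a number field `K`, for example over `K = ℚ`, and `i` an
integer.  For every number field `M ⊇ K` the variety `X_M`, seen as a variety over `ℚ`, is smooth and
projective, and `L(H^i(X_M), s)` is the `L`-function of the Chow motive of this variety.  The theorem is
about the poles and zeros on the line `Re s = i/2 + 1`, the boundary of the half plane of absolute
convergence, over all fields `M` between `K` and the Galois closure of a field `F ⊇ K` of large degree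
with symmetric Galois group.  Nothing is assumed about the automorphy of `H^i(X)`.
The definitions are in `Pool.Agent.W353.EH.Defs` and `Pool.Agent.W353.EF.Defs`.
-/

set_option autoImplicit false

namespace Pool.Agent.Results.MP_148101_nt.SymmetricEdgeLine

open NumberField IsDedekindDomain Filter Topology Polynomial
open Pool.Agent.W353.EF (LFun perm closure youngField quadField)
open Pool.Agent.W353.EH (edgePoint IsEulerSystem size HasOrder OrderOver)

/-- `L(H^i(X_M), s)` behaves at the point `s_τ = i/2 + 1 + iτ` of the edge line like a function of order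
`c` (`c < 0` for a pole, `c > 0` for a zero): it is different from zero at `s_τ + ε` for small `ε > 0`, the
quotient `log |L(s_τ + ε)| / log(1/ε)` tends to `-c`, and every meromorphic continuation to a
neighbourhood of `s_τ` has the order `c` at `s_τ`.  This is for all choices of the Euler factors at
finitely many primes allowed in `IsEulerSystem`. -/
def EdgeOrder {K : Type} [Field K] [NumberField K] {n : ℕ} (X : Set (MvPolynomial (Fin n) (𝓞 K)))
    (d i N : ℕ) (τ : ℝ) (M : IntermediateField K (AlgebraicClosure K)) (c : ℤ) : Prop :=
  ∀ [NumberField M] (B : HeightOneSpectrum (𝓞 M) → ℂ[X]), IsEulerSystem X d i N τ B →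
    (∀ᶠ ε : ℝ in 𝓝[>] 0, LFun B (edgePoint i τ + ε) ≠ 0) ∧
    Tendsto (size i τ B) (𝓝[>] 0) (𝓝 (-(c : ℝ))) ∧ ∀ k : ℤ, HasOrder i τ B k → k = c

open Classical in
/-- **The edge line over the subfields of a symmetric closure.**  For every `N` there is `n₀` with the
following property.  Let `X` be a projective variety of dimension `d` over a number field `K`,
`0 ≤ i ≤ 2d`, `N` the `i`-th Betti number, `F/K` an extension of degree at least `n₀` such that the Galois
group of its closure `L` is the group of all permutations of the embeddings, `Q = K(√disc F)`, and `τ`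
real.  Suppose that `L(H^i(X_M), s)` has a meromorphic continuation to a neighbourhood of
`s_τ = i/2 + 1 + iτ` for the Young subfields `M` of `L`.  Then there are two integers `a`, `b` with
`|a| + |b| ≤ N`, and even `|a| + |b| ≤ 2N/π` if `τ ≠ 0`, such that for all fields `M` between `K` and `L`,
with or without a continuation, `L(H^i(X_M), s)` has at `s_τ` the order `a` if `Q ⊄ M` and the order
`a + b` if `Q ⊆ M`.

In particular, if there is neither a pole nor a zero at `s_τ` over `K` and over the quadratic extension
`Q`, then this is true over all fields between `K` and `L`; for `N = 1` this is true for all `τ ≠ 0`. -/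
theorem result (N : ℕ) : ∃ n₀ : ℕ, ∀ (K : Type) [Field K] [NumberField K] (n d i : ℕ)
    (X : Set (MvPolynomial (Fin n) (𝓞 K))), i ≤ 2 * d →
    ∀ (F : Type) [Field F] [NumberField F] [Algebra K F] (τ : ℝ), Function.Surjective (perm K F) →
    n₀ ≤ Module.finrank K F → (∀ r, ∃ k : ℤ, OrderOver X d i N (youngField K F r) τ k) →
    ∃ a b : ℤ, ((|a| + |b| : ℤ) : ℝ) ≤ (if τ = 0 then (N : ℝ) else 2 * N / Real.pi) ∧
      ∀ M : IntermediateField K (AlgebraicClosure K), M ≤ closure K F →
        EdgeOrder X d i N τ M (a + if quadField K F ≤ M then b else 0) := by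
  obtain ⟨n₀, h⟩ := Pool.Agent.W353.EH.all N
  refine ⟨n₀, fun K _ _ n d i X hi F _ _ _ τ hF hn hk => ?_⟩
  choose m hm using hk
  obtain ⟨h1, h2⟩ := (h K n d i X hi).2 F τ hF hn m hm
  refine ⟨m ⊤, m ⊥ - m ⊤, ?_, fun M hM _ B hB => ?_⟩
  · rw [Int.cast_add]
    exact h2
  · have e : (m ⊤ + if quadField K F ≤ M then (m ⊥ - m ⊤) else 0 : ℤ) =
        Pool.Agent.W353.EH.expected F m M := by
      unfold Pool.Agent.W353.EH.expected
      by_cases hQ : quadField K F ≤ M
      · rw [if_pos hQ, if_pos hQ]
        ring
      · rw [if_neg hQ, if_neg hQ, add_zero]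
    rw [e]
    exact h1 M hM B hB

end Pool.Agent.Results.MP_148101_nt.SymmetricEdgeLine
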